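import Pool.Agent.U868.KI.N7

/-!
# The spectral threshold of the Kikuchi matrix tends to zero exactly for `r ≥ 4`

For every even `r ≥ 4` the rescaled spectral threshold `μ♮_{r,ℓ}` of the Kikuchi matrix of order `ℓ`
for tensor PCA of order `r` is at most `C_r ℓ^{-(r-2)/4}`; in particular it tends to `0` as `ℓ → ∞`,
as conjectured by Wein, El Alaoui and Moore. For `r = 2` it is at least `1` for all `ℓ`.

The point is a bound of the noise without logarithmic loss: `𝔼 λmax M(0)` is at most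
`ℓ C(r, r/2) (51200 n C(n, r/2 - 1) C(ℓ - 1, r/2 - 1))^{1/2}` for all `n ≥ ℓ ≥ r/2`. For its proof one
vertex of the symmetric difference is singled out in each of the two sets, so that (a piece of) `M(0)`
becomes an `n × n` block matrix of Gaussian matrices with operator coefficients, and its trace
moments are compared with those of an ordinary symmetric `n × n` Gaussian matrix, whose norm is
`O(√n)`, for moments of order `n`, so large that the dimension of the coefficients plays no role.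

For `r = 2` the means with and without signal are compared by the Cauchy-Schwarz inequality: the
variance of `λmax` is `O(√n)` by the Efron-Stein inequality, and the likelihood ratio of the signal
with random signs has a bounded second moment for `μ < 1`.
-/

set_option autoImplicit false
open Filter MeasureTheory ProbabilityTheory
open scoped Topology

namespace Pool.Agent.Results.MP_d47e08_pr.ThresholdTendsToZero

/-- The Kikuchi matrix `M(λ)`: rows and columns are labelled by the `ℓ`-subsets of `{1, …, n}`, the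
entry at `(I, J)` is `λ + Z_{I Δ J}` if `|I Δ J| = r` and `0` otherwise. -/
def kikuchi (n r ℓ : ℕ) (lam : ℝ) (Z : Finset (Fin n) → ℝ) :
    Matrix {K : Finset (Fin n) // K.card = ℓ} {K : Finset (Fin n) // K.card = ℓ} ℝ :=
  Matrix.of fun I J => if (symmDiff I.1 J.1).card = r then lam + Z (symmDiff I.1 J.1) else 0

/-- The largest eigenvalue of a real symmetric matrix, as the supremum of its quadratic form on the
unit sphere. -/
noncomputable def lambdaMax {m : Type} [Fintype m] (A : Matrix m m ℝ) : ℝ :=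
  sSup {t : ℝ | ∃ v : m → ℝ, dotProduct v v = 1 ∧ t = dotProduct v (Matrix.mulVec A v)}

/-- `𝔼 λmax M(λ)` for independent standard Gaussians `Z_S`. -/
noncomputable def meanMax (n r ℓ : ℕ) (lam : ℝ) : ℝ :=
  ∫ Z : Finset (Fin n) → ℝ, lambdaMax (kikuchi n r ℓ lam Z)
    ∂(Measure.pi fun _ : Finset (Fin n) => gaussianReal 0 1)

/-- `𝔼 λmax M(μ n^{-r/4}) / 𝔼 λmax M(0)`. -/
noncomputable def ratio (n r ℓ : ℕ) (μ : ℝ) : ℝ :=
  meanMax n r ℓ (μ * (n : ℝ) ^ (-(r : ℝ) / 4)) / meanMax n r ℓ 0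

/-- `ρ_{r,ℓ}(μ)`, the lower limit of the ratios for `n → ∞`. -/
noncomputable def rho (r ℓ : ℕ) (μ : ℝ) : EReal :=
  liminf (fun n : ℕ => ((ratio n r ℓ μ : ℝ) : EReal)) atTop

/-- The rescaled spectral threshold `μ♮_{r,ℓ} = inf {μ ≥ 0 : ρ_{r,ℓ}(μ) > 1}` in `[0, ∞]`. -/
noncomputable def threshold (r ℓ : ℕ) : EReal :=
  sInf {x : EReal | ∃ μ : ℝ, 0 ≤ μ ∧ 1 < rho r ℓ μ ∧ x = (μ : EReal)}

theorem threshold_nonneg (r ℓ : ℕ) : 0 ≤ threshold r ℓ := by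
  refine le_sInf ?_
  rintro x ⟨μ, hμ, _, rfl⟩
  exact_mod_cast hμ

theorem threshold_le {r ℓ : ℕ} {d : ℝ} (μ : ℝ) (hμ : 0 ≤ μ) (h1 : 1 < d * μ)
    (h : ∀ᶠ n : ℕ in atTop, d * μ ≤ ratio n r ℓ μ) : threshold r ℓ ≤ (μ : EReal) := by
  refine sInf_le ⟨μ, hμ, ?_, rfl⟩
  have h2 : ((d * μ : ℝ) : EReal) ≤ rho r ℓ μ := by
    refine le_liminf_of_le ?_ ?_
    · isBoundedDefault
    · filter_upwards [h] with n hn
      exact_mod_cast hn
  refine lt_of_lt_of_le ?_ h2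
  exact_mod_cast h1

theorem rho_two_le (ℓ : ℕ) (hℓ : 1 ≤ ℓ) (μ : ℝ) (h0 : 0 ≤ μ) (h1 : μ < 1) : rho 2 ℓ μ ≤ 1 := by
  by_contra hcon
  push Not at hcon
  obtain ⟨c, hc1, hc2⟩ := EReal.lt_iff_exists_real_btwn.1 hcon
  have hc1' : (1 : ℝ) < c := by exact_mod_cast hc1
  have h2 := U868.KI.ratio_two ℓ hℓ μ h0 h1 (c - 1) (by linarith)
  have h3 : rho 2 ℓ μ ≤ (c : EReal) := by
    refine liminf_le_of_frequently_le ?_ ?_
    · refine Eventually.frequently ?_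
      filter_upwards [h2] with n hn
      have : ratio n 2 ℓ μ ≤ c := by
        have h4 : ratio n 2 ℓ μ < 1 + (c - 1) := hn
        linarith
      exact_mod_cast this
    · isBoundedDefault
  exact absurd h3 (not_le.2 hc2)

theorem one_le_threshold (ℓ : ℕ) (hℓ : 1 ≤ ℓ) : 1 ≤ threshold 2 ℓ := by
  refine le_sInf ?_
  rintro x ⟨μ, hμ, h1, rfl⟩
  by_contra hcon
  push Not at hcon
  have : μ < 1 := by exact_mod_cast hcon
  exact absurd (rho_two_le ℓ hℓ μ hμ this) (not_le.2 h1)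

/-- **Theorem.** Let `r ≥ 2` be even.

(1) There is `c > 0`, depending only on `r`, such that for all `ℓ ≥ r/2` and `μ ≥ 0` one has
`𝔼 λmax M(μ n^{-r/4}) ≥ c μ ℓ^{(r-2)/4} 𝔼 λmax M(0)` for all large `n`.

(2) There is `C`, depending only on `r`, with `μ♮_{r,ℓ} ≤ C ℓ^{-(r-2)/4}` for all `ℓ ≥ r/2`.

(3) If `r = 2`, then `ρ_{2,ℓ}(μ) ≤ 1` for all `ℓ ≥ 1` and `0 ≤ μ < 1`, so `μ♮_{2,ℓ} ≥ 1`.

(4) `μ♮_{r,ℓ} → 0` as `ℓ → ∞` if and only if `r ≥ 4`.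

(5) Assertion (4) for `r ≥ 4` in terms of `ε`: if `r ≥ 4` and `δ > 0`, then for all large `ℓ` and
every `μ > δ` there is `ε > 0` with `𝔼 λmax M(μ n^{-r/4}) ≥ (1 + ε) 𝔼 λmax M(0)` for all large `n`. -/
theorem result (r : ℕ) (hr : 2 ≤ r) (he : Even r) :
    (∃ c : ℝ, 0 < c ∧ ∀ ℓ : ℕ, r / 2 ≤ ℓ → ∀ μ : ℝ, 0 ≤ μ → ∀ᶠ n : ℕ in atTop,
      c * μ * (ℓ : ℝ) ^ (((r : ℝ) - 2) / 4) ≤ ratio n r ℓ μ) ∧
    (∃ C : ℝ, ∀ ℓ : ℕ, r / 2 ≤ ℓ →
      threshold r ℓ ≤ ((C * (ℓ : ℝ) ^ (-((r : ℝ) - 2) / 4) : ℝ) : EReal)) ∧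
    (r = 2 → ∀ ℓ : ℕ, 1 ≤ ℓ → (∀ μ : ℝ, 0 ≤ μ → μ < 1 → rho r ℓ μ ≤ 1) ∧ 1 ≤ threshold r ℓ) ∧
    (Tendsto (fun ℓ : ℕ => threshold r ℓ) atTop (𝓝 0) ↔ 4 ≤ r) ∧
    (4 ≤ r → ∀ δ : ℝ, 0 < δ → ∀ᶠ ℓ : ℕ in atTop, ∀ μ : ℝ, δ < μ →
      ∃ ε : ℝ, 0 < ε ∧ ∀ᶠ n : ℕ in atTop, 1 + ε ≤ ratio n r ℓ μ) := by
  obtain ⟨k, rfl⟩ : ∃ k, r = 2 * k := by
    obtain ⟨k, hk⟩ := he
    exact ⟨k, by omega⟩
  have hk : 1 ≤ k := by omega
  have hdiv : 2 * k / 2 = k := by omega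
  have main : ∀ ℓ : ℕ, k ≤ ℓ → ∀ μ : ℝ, 0 ≤ μ → ∀ᶠ n : ℕ in atTop,
      U868.KI.dk k * μ * (ℓ : ℝ) ^ ((((2 * k : ℕ) : ℝ) - 2) / 4) ≤ ratio n (2 * k) ℓ μ := by
    intro ℓ hℓ μ hμ
    filter_upwards [eventually_ge_atTop (2 * (ℓ + k))] with n hn
    exact U868.KI.ratio_lower' k ℓ n hk hℓ hn μ hμ
  have hd := U868.KI.dk_pos k hk
  set d := U868.KI.dk k with hdd
  have hbound : ∀ ℓ : ℕ, k ≤ ℓ → threshold (2 * k) ℓ ≤
      ((2 / d * (ℓ : ℝ) ^ (-(((2 * k : ℕ) : ℝ) - 2) / 4) : ℝ) : EReal) := by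
    intro ℓ hℓ
    have hℓ0 : (0 : ℝ) < ℓ := by
      have : 0 < ℓ := by omega
      exact_mod_cast this
    have hp : (ℓ : ℝ) ^ (-(((2 * k : ℕ) : ℝ) - 2) / 4) * (ℓ : ℝ) ^ ((((2 * k : ℕ) : ℝ) - 2) / 4) = 1 := by
      rw [← Real.rpow_add hℓ0]
      have : -(((2 * k : ℕ) : ℝ) - 2) / 4 + (((2 * k : ℕ) : ℝ) - 2) / 4 = 0 := by ring
      rw [this, Real.rpow_zero]
    have hq0 : 0 < (ℓ : ℝ) ^ ((((2 * k : ℕ) : ℝ) - 2) / 4) := Real.rpow_pos_of_pos hℓ0 _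
    have hq1 : 0 < (ℓ : ℝ) ^ (-(((2 * k : ℕ) : ℝ) - 2) / 4) := Real.rpow_pos_of_pos hℓ0 _
    set q := (ℓ : ℝ) ^ ((((2 * k : ℕ) : ℝ) - 2) / 4) with hq
    set q' := (ℓ : ℝ) ^ (-(((2 * k : ℕ) : ℝ) - 2) / 4) with hq'
    refine threshold_le (d := d * q) (2 / d * q') (by positivity) ?_ ?_
    · have : d * q * (2 / d * q') = 2 * (q' * q) := by field_simp
      rw [this, hp]; norm_num
    · filter_upwards [main ℓ hℓ (2 / d * q') (by positivity)] with n hn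
      calc d * q * (2 / d * q') = d * (2 / d * q') * q := by ring
        _ ≤ _ := hn
  refine ⟨⟨d, hd, ?_⟩, ⟨2 / d, ?_⟩, ?_, ⟨?_, ?_⟩, ?_⟩
  · rw [hdiv]; exact main
  · rw [hdiv]; exact hbound
  · intro hr2 ℓ hℓ
    rw [hr2]
    exact ⟨fun μ h0 h1 => rho_two_le ℓ hℓ μ h0 h1, one_le_threshold ℓ hℓ⟩
  · intro ht
    by_contra hr4
    have hr2 : 2 * k = 2 := by omega
    rw [hr2] at ht
    have h1 : (1 : EReal) ≤ 0 := by
      refine ge_of_tendsto ht ?_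
      filter_upwards [eventually_ge_atTop 1] with ℓ hℓ using one_le_threshold ℓ hℓ
    exact absurd h1 (by simp)
  · intro hr4
    have hk2 : 2 ≤ k := by omega
    have hexp : (0 : ℝ) < (((2 * k : ℕ) : ℝ) - 2) / 4 := by
      have : (2 : ℝ) ≤ k := by exact_mod_cast hk2
      push_cast; linarith
    have h1 : Tendsto (fun ℓ : ℕ => 2 / d * (ℓ : ℝ) ^ (-(((2 * k : ℕ) : ℝ) - 2) / 4)) atTop (𝓝 0) := by
      have h2 := (tendsto_rpow_neg_atTop hexp).comp tendsto_natCast_atTop_atTop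
      have h3 := h2.const_mul (2 / d)
      rw [mul_zero] at h3
      refine h3.congr fun ℓ => ?_
      simp only [Function.comp]
      rw [neg_div]
    have h4 : Tendsto (fun ℓ : ℕ => ((2 / d * (ℓ : ℝ) ^ (-(((2 * k : ℕ) : ℝ) - 2) / 4) : ℝ) : EReal))
        atTop (𝓝 0) := by
      have := (EReal.tendsto_coe (a := 0)).2 h1
      simpa using this
    refine tendsto_of_tendsto_of_tendsto_of_le_of_le' tendsto_const_nhds h4
      (Eventually.of_forall fun ℓ => threshold_nonneg _ _) ?_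
    filter_upwards [eventually_ge_atTop k] with ℓ hℓ using hbound ℓ hℓ
  · intro hr4 δ hδ
    have hk2 : 2 ≤ k := by omega
    have hexp : (0 : ℝ) < (((2 * k : ℕ) : ℝ) - 2) / 4 := by
      have : (2 : ℝ) ≤ k := by exact_mod_cast hk2
      push_cast; linarith
    have h1 : Tendsto (fun ℓ : ℕ => d * δ * (ℓ : ℝ) ^ ((((2 * k : ℕ) : ℝ) - 2) / 4)) atTop atTop := by
      have h2 := (tendsto_rpow_atTop hexp).comp tendsto_natCast_atTop_atTop
      exact h2.const_mul_atTop (by positivity)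
    filter_upwards [h1.eventually_ge_atTop 2, eventually_ge_atTop k] with ℓ hℓ2 hℓ μ hμ
    refine ⟨1, one_pos, ?_⟩
    filter_upwards [main ℓ hℓ μ (hδ.le.trans hμ.le)] with n hn
    refine le_trans ?_ hn
    have hq0 : 0 ≤ (ℓ : ℝ) ^ ((((2 * k : ℕ) : ℝ) - 2) / 4) := Real.rpow_nonneg (by positivity) _
    calc (1 : ℝ) + 1 = 2 := by norm_num
      _ ≤ d * δ * (ℓ : ℝ) ^ ((((2 * k : ℕ) : ℝ) - 2) / 4) := hℓ2
      _ ≤ d * μ * (ℓ : ℝ) ^ ((((2 * k : ℕ) : ℝ) - 2) / 4) := by gcongr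

end Pool.Agent.Results.MP_d47e08_pr.ThresholdTendsToZero
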